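import Mathlib
import Pool.Agent.H154Z.Clone.Main

set_option autoImplicit false

namespace Pool.Agent.Results.MP_a98434_lc.AContinuousModel

open Pool.Agent.Helper672.Plain (LSet)
open Pool.Agent.H635Amen (ZF)
open Pool.Agent.H154Z.Clone

/-- There is a model of ZF (with standard natural numbers) in which every clone homomorphism
from an oligomorphic closed function clone on a countably infinite set to the clone of
projections is continuous. -/
theorem result : ∃ (N : Type 1) (_ : LSet.Structure N), ZF N ∧ OmegaModel N ∧
    ∀ Ω : N, CountablyInfinite Ω → ∀ C : ∀ n, Set (Op Ω n), IsClosedClone Ω C →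
      Oligomorphic C → ∀ ξ : ∀ n, C n → Fin n, IsProjHom C ξ → ContinuousHom C ξ :=
  Pool.Agent.Helper672.ZFA.H154.exists_model

end Pool.Agent.Results.MP_a98434_lc.AContinuousModel
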